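import Pool.Agent.Run7.h152.HL.Pol

/-!
# Decompositions of the diagonal and orthogonal lifts: definitions
-/

set_option autoImplicit false

universe u v w

namespace Run7.h152.BS

open Run7.h152.DR Run7.h152.HL

/-- The scheme over a complete discrete valuation ring has a strictly semistable alteration such that
conjecture D is true in codimension `n + 1` for the components of the closed fibre, and the part
`NoInvariants` of the weight-monodromy conjecture for `H^(2 n + 1)`. The classes have codimension
`m + 1`, and `m + n + 1` is the dimension of the generic fibre. -/
def HasMonodromyAlteration (A : Arith.{w}) (m n : ℕ) : Prop :=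
  ∃ (A' : Arith.{w}) (Y : Fibre.{u, v, w} A'), Nonempty (Alteration A' A) ∧ IsSemistable Y m n ∧
    (∀ l, HomNumAt Y.W (Y.T.Q 0 l) (n + 1)) ∧ NoInvariants Y.W Y.T n

/-- All local schemes are good or have alterations as above. -/
def IsMonodromic (A : Arith.{w}) : Prop :=
  ∃ (S : Type w) (L : S → Arith.{w}) (m n : ℕ), Nonempty (Localisation A L) ∧
    ∀ v, (L v).IsGood ∨ HasMonodromyAlteration.{u, v, w} (L v) m n

/-- Correspondences between the regular schemes of `A` and of `B`: the action `push` on classes of the
correspondence from `B` to `A`, with its action `pushV` on the generic fibres and the action `pullF` of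
its transpose on fibral classes, and the action `pullV` on the generic fibres of a correspondence from
`A` to `B`. -/
structure Through (A B : Arith.{w}) where
  /-- the action of the correspondence from `B` to `A` -/
  push : B.Z → A.Z
  /-- its action for the generic fibres -/
  pushV : B.V →ₗ[ℚ] A.V
  /-- the action of a correspondence from `A` to `B` for the generic fibres -/
  pullV : A.V →ₗ[ℚ] B.V
  /-- the action of the transpose of the correspondence from `B` to `A` on fibral classes -/
  pullF : A.F → B.F
  gen_push : ∀ z, A.gen (push z) = pushV (B.gen z)
  pull_hom : ∀ c ∈ A.hom, pullV c ∈ B.hom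
  proj : ∀ z f, A.pair (push z) f = B.pair z (pullF f)

/-- A nonzero multiple of the identity of the Chow group of the generic fibre of `A` is a sum of maps
which factor through the Chow groups of the generic fibres of the `B t`, the maps being given by
correspondences. -/
def Decomposes (A : Arith.{w}) {r : ℕ} (B : Fin r → Arith.{w}) : Prop :=
  ∃ (f : ∀ t, Through A (B t)) (N : ℚ), N ≠ 0 ∧
    ∀ c, N • c = ∑ t, (f t).pushV ((f t).pullV c)

/-- A class of regular proper flat schemes over the ring of integers of a number field with smooth
generic fibres. -/
structure Models where
  /-- the schemes -/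
  Var : Type w
  /-- the dimension of the generic fibre -/
  dim : Var → ℕ
  /-- the groups for cycles of codimension `i` -/
  A : Var → ℕ → Arith.{w}

/-- Known facts on the groups. -/
structure IsModels (M : Models.{w}) : Prop where
  /-- the intersection numbers are additive -/
  pair_add : ∀ X i (z z' : (M.A X i).Z) f,
    (M.A X i).pair (z + z') f = (M.A X i).pair z f + (M.A X i).pair z' f
  /-- orthogonal lifts exist for divisors and zero-cycles (and for classes of codimension zero or
  larger than the dimension of the generic fibre) -/
  classical : ∀ X i, i ≤ 1 ∨ M.dim X ≤ i → (M.A X i).HasLifts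
  /-- the existence of projective strictly semistable alterations over the completions, for classes of
  one-dimensional cycles on the generic fibre -/
  alterations : ∀ X e, M.dim X = e + 3 → ∃ (S : Type w) (L : S → Arith.{w}),
    Nonempty (Localisation (M.A X (e + 2)) L) ∧
      ∀ v, (L v).IsGood ∨ HasSemistableAlteration.{u, v, w} (L v) e

/-- The zero-cycles on the generic fibre of `X` are supported in dimension at most three. By the theorem
of Bloch and Srinivas a multiple of the diagonal is a sum `Z₁ + Z₂`, where `Z₁` is supported on
`W × X`, with `W` of dimension at most three, and `Z₂` on `X × D`, with `D` of codimension one. Here `W`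
and `D` are replaced by regular alterations. The cycle acts on classes of codimension `i` in two ways,
through classes of codimension `i` on `W` and `i - 1` on `D`, and, for the transpose, through
classes of codimension `i + dim W - dim X` on `W` and `i` on `D`. -/
def HasSmallZeroCycles (M : Models.{w}) (X : M.Var) : Prop :=
  ∃ W D : M.Var, M.dim W ≤ 3 ∧ M.dim D + 1 = M.dim X ∧
    (∀ i, 1 ≤ i → Decomposes (M.A X i) ![M.A W i, M.A D (i - 1)]) ∧
    ∀ i, Decomposes (M.A X i) ![M.A W (i + M.dim W - M.dim X), M.A D i]

end Run7.h152.BS
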