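import Pool.Agent.Run7.h152.BS.Defs
import Pool.Agent.Run7.h152.HL.Main
import Pool.Agent.Run7.h152.HL.Five

/-!
# Decompositions of the diagonal and orthogonal lifts
-/

set_option autoImplicit false

universe u v w

namespace Run7.h152.BS

open Run7.h152.DR Run7.h152.HL

lemma pair_sum {A : Arith.{w}} (hadd : ∀ (z z' : A.Z) f, A.pair (z + z') f = A.pair z f + A.pair z' f)
    {r : ℕ} (z : Fin r → A.Z) (f : A.F) (h0 : ∀ t, A.pair (z t) f = 0) :
    A.pair (∑ t, z t) f = 0 := by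
  have h00 : A.pair 0 f = 0 := by
    have := hadd 0 0 f
    rw [add_zero] at this
    linarith
  have hg : ∀ s : Finset (Fin r), A.pair (∑ t ∈ s, z t) f = 0 := by
    classical
    intro s
    induction s using Finset.induction_on with
    | empty => rw [Finset.sum_empty, h00]
    | insert i s hi ih => rw [Finset.sum_insert hi, hadd, ih, h0, add_zero]
  exact hg _

lemma Decomposes.hasLifts {A : Arith.{w}} {r : ℕ} {B : Fin r → Arith.{w}} (h : Decomposes A B)
    (hadd : ∀ (z z' : A.Z) f, A.pair (z + z') f = A.pair z f + A.pair z' f)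
    (hB : ∀ t, (B t).HasLifts) : A.HasLifts := by
  obtain ⟨f, N, hN, h⟩ := h
  intro c hc
  have hc' := A.hom.smul_mem N⁻¹ hc
  choose z hz hz' using fun t => hB t _ ((f t).pull_hom _ hc')
  refine ⟨∑ t, (f t).push (z t), ?_, fun t => pair_sum hadd _ _ fun s => ?_⟩
  · rw [map_sum]
    have e1 : ∀ t, A.gen ((f t).push (z t)) = (f t).pushV ((f t).pullV (N⁻¹ • c)) := fun t => by
      rw [(f t).gen_push, hz]
    rw [Finset.sum_congr rfl fun t _ => e1 t, ← h, smul_smul, mul_inv_cancel₀ hN, one_smul]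
  · rw [(f s).proj, hz']

variable {M : Models.{w}}

lemma IsModels.hasLifts (hM : IsModels.{u, v, w} M) (X : M.Var) (i : ℕ)
    (hi : i ≤ 1 ∨ M.dim X ≤ i + 1) : (M.A X i).HasLifts := by
  by_cases h1 : i ≤ 1 ∨ M.dim X ≤ i
  · exact hM.classical X i h1
  · obtain ⟨e, rfl⟩ : ∃ e, i = e + 2 := ⟨i - 2, by omega⟩
    obtain ⟨S, L, ⟨Λ⟩, hL⟩ := hM.alterations X e (by omega)
    refine Λ.hasLifts fun v => (hL v).imp id ?_
    rintro ⟨A', Y, h, ⟨φ⟩, hY, hP⟩
    exact φ.hasLifts (hY.hasLifts (hP.numBoundary fun p l => by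
      have := hY.dim p l
      omega))

theorem IsMonodromic.hasLifts {A : Arith.{w}} (h : IsMonodromic.{u, v, w} A) : A.HasLifts := by
  obtain ⟨S, L, m, n, ⟨Λ⟩, h⟩ := h
  refine Λ.hasLifts fun v => (h v).imp id ?_
  rintro ⟨A', Y, ⟨φ⟩, hY, hD, hN⟩
  exact φ.hasLifts (hY.hasLifts (hN.numBoundary hY.dim hD))

theorem hasLifts_of_decomposes (hM : IsModels.{u, v, w} M) (X : M.Var) (i : ℕ) {r : ℕ}
    (Y : Fin r → M.Var) (j : Fin r → ℕ)
    (hj : ∀ t, j t ≤ 1 ∨ M.dim (Y t) ≤ j t + 1 ∨ IsMonodromic.{u, v, w} (M.A (Y t) (j t)))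
    (h : Decomposes (M.A X i) fun t => M.A (Y t) (j t)) : (M.A X i).HasLifts :=
  h.hasLifts (hM.pair_add X i) fun t => by
    rcases hj t with h1 | h1 | h1
    · exact hM.hasLifts _ _ (Or.inl h1)
    · exact hM.hasLifts _ _ (Or.inr h1)
    · exact h1.hasLifts

theorem hasLifts_of_small (hM : IsModels.{u, v, w} M) (X : M.Var) (hX : HasSmallZeroCycles M X)
    (i : ℕ) (hi : i ≤ 2 ∨ M.dim X ≤ i + 2) : (M.A X i).HasLifts := by
  obtain ⟨W, D, hW, hD, h1, h2⟩ := hX
  by_cases h3 : i ≤ 1 ∨ M.dim X ≤ i + 1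
  · exact hM.hasLifts X i h3
  · rcases hi with hi | hi
    · obtain rfl : i = 2 := by omega
      refine (h1 2 (by omega)).hasLifts (hM.pair_add X 2) fun t => ?_
      match t with
      | 0 => exact hM.hasLifts W 2 (by omega)
      | 1 => exact hM.hasLifts D (2 - 1) (by omega)
    · refine (h2 i).hasLifts (hM.pair_add X i) fun t => ?_
      match t with
      | 0 => exact hM.hasLifts W (i + M.dim W - M.dim X) (by omega)
      | 1 => exact hM.hasLifts D i (by omega)

end Run7.h152.BS
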